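import Mathlib
import Pool.Agent.W277.UG.D11

/-!
# Strong uniform boundedness for all polynomials over function fields of characteristic zero
-/

namespace Pool.Agent.Results.MP_9b502d_nt.AllPolynomialsStrong

open Polynomial

/-- Let `L` be of degree at most `n` over `k(t)`, `char k = 0`. A polynomial `f` of degree `d ≥ 2`
over `L`, not affinely conjugate over `L` to a polynomial with coefficients algebraic over `k`, has
fewer than `d ^ (24 * (1 + (8 * d + 16 * n + 15) * d ^ (32 * d ^ 2 * (d + 1))))` preperiodic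
points in `L`. Moreover it has at most `max (d ^ 96) (d ^ (c * d ^ 2))` of them, with `c` depending
only on `L / k` (`c = 0` if `L` is purely transcendental), and at most `d ^ 2 + 1` if `f` is
`A (X - b) ^ d + (terms of degree at most e)` with `d ≥ n (e + 2) ^ 4`. -/
theorem result (k L : Type*) [Field k] [CharZero k] [Field L] [Algebra k L] (t : L)
    (ht : Transcendental k t) [FiniteDimensional (IntermediateField.adjoin k {t}) L] :
    ∃ c : ℕ, ((∃ t' : L, IntermediateField.adjoin k {t'} = ⊤) → c = 0) ∧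
      ∀ (n d : ℕ) (f : L[X]), Module.finrank (IntermediateField.adjoin k {t}) L ≤ n →
        2 ≤ d → f.natDegree = d →
        (¬ ∃ y b : L, y ≠ 0 ∧
          ∀ m, IsAlgebraic k ((C y⁻¹ * (f.comp (C y * X + C b) - C b)).coeff m)) →
        {z : L | (Set.range fun m : ℕ => (fun x => f.eval x)^[m] z).Finite}.encard <
          ((d ^ (24 * (1 + (8 * d + 16 * n + 15) * d ^ (32 * d ^ 2 * (d + 1)))) : ℕ) : ℕ∞) ∧
        {z : L | (Set.range fun m : ℕ => (fun x => f.eval x)^[m] z).Finite}.encard ≤
          ((max (d ^ 96) (d ^ (c * d ^ 2)) : ℕ) : ℕ∞) ∧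
        ∀ (e : ℕ) (A b : L), A ≠ 0 → (f.comp (X + C b) - C A * X ^ d).natDegree ≤ e →
          n * (e + 2) ^ 4 ≤ d →
          {z : L | (Set.range fun m : ℕ => (fun x => f.eval x)^[m] z).Finite}.encard ≤
            ((d ^ 2 + 1 : ℕ) : ℕ∞) :=
  Pool.Agent.W277.UG.final_poly k L t ht

end Pool.Agent.Results.MP_9b502d_nt.AllPolynomialsStrong
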