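import Mathlib
import Pool.Agent.W277.UH.F2

/-!
# Uniform boundedness for all rational maps over function fields of characteristic zero
-/

namespace Pool.Agent.Results.MP_9b502d_nt.AllRationalMaps

open Polynomial

universe u v

/-- The self-map of the projective line `K ∪ {∞}`, where `none` is `∞`, given by the rational
function `p / q`, where `p` and `q` are coprime and `d` is the larger of their degrees: it sends
`x` to `p(x) / q(x)`, or to `∞` when `q(x) = 0`, and it sends `∞` to the quotient of the
coefficients of degree `d`, or to `∞` when that of `q` is zero. -/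
noncomputable def mapP1 {K : Type*} [Field K] (p q : K[X]) (d : ℕ) : Option K → Option K
  | some x => by classical exact if q.eval x = 0 then none else some (p.eval x / q.eval x)
  | none => by classical exact if q.coeff d = 0 then none else some (p.coeff d / q.coeff d)

/-- With `φ(x) = (a x + b) / (c x + e)`, the map `p / q` of degree `d` satisfies
`φ ∘ (p / q) = (u / w) ∘ φ` for some `a, b, c, e` in `K` with `a e ≠ b c` and some polynomials
`u, w` of degree at most `d`, not both zero, with coefficients algebraic over `k`; the equation is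
written with denominators cleared. -/
def IsotrivialOver (k : Type*) {K : Type*} [Field k] [Field K] [Algebra k K] (p q : K[X])
    (d : ℕ) : Prop :=
  ∃ a b c e : K, a * e - b * c ≠ 0 ∧ ∃ u w : K[X], (u ≠ 0 ∨ w ≠ 0) ∧
    u.natDegree ≤ d ∧ w.natDegree ≤ d ∧ (∀ n, IsAlgebraic k (u.coeff n)) ∧
    (∀ n, IsAlgebraic k (w.coeff n)) ∧
    (C a * p + C b * q) * ∑ i ∈ Finset.range (d + 1),
      C (w.coeff i) * (C a * X + C b) ^ i * (C c * X + C e) ^ (d - i) =
    (C c * p + C e * q) * ∑ i ∈ Finset.range (d + 1),
      C (u.coeff i) * (C a * X + C b) ^ i * (C c * X + C e) ^ (d - i)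

/-- There is a function `N` such that, for every function field `K` of one variable over a field
`k` of characteristic zero, there is `c`, equal to `0` if `K = k(t)` for some `t`, such that for
all `d ≥ 2` every rational map `p / q` of degree `d` over `K` which is not isotrivial has at most
`N(d) ^ (c + 1)` preperiodic points in the projective line over `K`. -/
theorem result : ∃ N : ℕ → ℕ, ∀ (k : Type u) (K : Type v) [Field k] [CharZero k] [Field K]
    [Algebra k K], (⊤ : IntermediateField k K).FG →
    (∃ x : K, Transcendental k x ∧ Algebra.IsAlgebraic (IntermediateField.adjoin k {x}) K) →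
    ∃ c : ℕ, ((∃ t : K, IntermediateField.adjoin k {t} = ⊤) → c = 0) ∧ ∀ d : ℕ, 2 ≤ d →
    ∀ p q : K[X], IsCoprime p q → max p.natDegree q.natDegree = d → ¬ IsotrivialOver k p q d →
    {z : Option K | (Set.range fun m : ℕ => (mapP1 p q d)^[m] z).Finite}.encard ≤
      ((N d ^ (c + 1) : ℕ) : ℕ∞) := by
  obtain ⟨N, hN⟩ := Pool.Agent.W277.UH.ubp_rationalU.{v, u}
  refine ⟨N, fun k K _ _ _ _ hFG hx => ?_⟩
  obtain ⟨c, hc0, hc⟩ := hN k K hFG hx
  refine ⟨c, hc0, fun d hd p q hco hmax hiso => ?_⟩
  have h := hc d hd p q hco hmax hiso
  have e : mapP1 p q d = Pool.Agent.W277.UH.ratP1 p q d := by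
    funext z
    cases z <;> rfl
  rw [e]
  exact h

end Pool.Agent.Results.MP_9b502d_nt.AllRationalMaps
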