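import Mathlib
import Pool.Agent.W277.UE.R5

/-!
# Strong uniform boundedness for rational maps with a gap, over all extensions of `k(t)` of bounded
degree
-/

namespace Pool.Agent.Results.MP_9b502d_nt.GapRationalMaps

open Polynomial

open Classical in
/-- The self-map `z ↦ p(z) / q(z)` of the projective line `L ∪ {∞}`, where `none` is `∞`; it sends
`∞` and the zeros of `q` to `∞`. (It is used for `deg p > deg q`, when `∞` is fixed.) -/
noncomputable def mapP1 {L : Type*} [Field L] (p q : L[X]) (z : Option L) : Option L :=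
  z.elim none fun x => if q.eval x = 0 then none else some (p.eval x / q.eval x)

/-- Let `L` be of degree at most `n` over `k(t)`, `char k = 0`, `d ≥ 26 n (e + 1) ^ 6`, and let
`F = (A z ^ d + a(z)) / q(z)` with `A ≠ 0`, `q ≠ 0` and `deg a, deg q ≤ e`. If no `y⁻¹ F(y z)` is
a quotient of polynomials with coefficients algebraic over `k`, then `F` has at most
`(d + e) ^ 2 + (d + 1) e + 2` preperiodic points in the projective line over `L`. -/
theorem result (k L : Type*) [Field k] [CharZero k] [Field L] [Algebra k L] (t : L)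
    (ht : Transcendental k t) [FiniteDimensional (IntermediateField.adjoin k {t}) L]
    (n e d : ℕ) (hn : Module.finrank (IntermediateField.adjoin k {t}) L ≤ n)
    (hd : 26 * n * (e + 1) ^ 6 ≤ d) (p q : L[X]) (A : L) (hA : A ≠ 0)
    (hp : (p - C A * X ^ d).natDegree ≤ e) (hq : q.natDegree ≤ e) (hq0 : q ≠ 0)
    (hiso : ¬ ∃ y c : L, y ≠ 0 ∧ c ≠ 0 ∧
      (∀ j, IsAlgebraic k ((C c * p.comp (C y * X)).coeff j)) ∧
      ∀ j, IsAlgebraic k ((C (c * y) * q.comp (C y * X)).coeff j)) :
    {z : Option L | (Set.range fun m : ℕ => (mapP1 p q)^[m] z).Finite}.encard ≤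
      (((d + e) ^ 2 + (d + 1) * e + 2 : ℕ) : ℕ∞) :=
  Pool.Agent.W277.UE.rat_strong k L t ht n e d hn hd p q A hA hp hq hq0 hiso

end Pool.Agent.Results.MP_9b502d_nt.GapRationalMaps
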